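import Pool.Agent.helper65.T1.SpecN

/-!
# Row NM2 of project T1 (MP_07c750_an), block N: integration of a pointwise inequality
-/

set_option autoImplicit false

open MeasureTheory

namespace Pool.Agent.T1

theorem NM2_mem (a r x : ℝ) : |x - a| ≤ r ↔ x ∈ Set.Icc (a - r) (a + r) := by
  rw [abs_le, Set.mem_Icc]
  constructor
  · rintro ⟨h1, h2⟩
    exact ⟨by linarith, by linarith⟩
  · rintro ⟨h1, h2⟩
    exact ⟨by linarith, by linarith⟩

theorem NM2_ind (a r : ℝ) (hr : 0 ≤ r) : Integrable ((Set.Icc (a - r) (a + r)).indicator fun _ : ℝ => (1 : ℝ)) ∧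
    ∫ x, (Set.Icc (a - r) (a + r)).indicator (fun _ : ℝ => (1 : ℝ)) x = 2 * r := by
  constructor
  · exact (continuous_const.continuousOn.integrableOn_compact isCompact_Icc).integrable_indicator measurableSet_Icc
  · rw [integral_indicator measurableSet_Icc, integral_Icc_eq_integral_Ioc, ← intervalIntegral.integral_of_le (by linarith),
      intervalIntegral.integral_const, smul_eq_mul, mul_one]
    ring

theorem NM2_cont {g : ℝ → ℝ} (hg : Continuous g) {a b : ℝ} (hab : a ≤ b) : Integrable ((Set.Icc a b).indicator g) ∧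
    ∫ x, (Set.Icc a b).indicator g x = ∫ x in a..b, g x := by
  constructor
  · exact (hg.continuousOn.integrableOn_compact isCompact_Icc).integrable_indicator measurableSet_Icc
  · rw [integral_indicator measurableSet_Icc, intervalIntegral.integral_of_le hab, integral_Icc_eq_integral_Ioc]

/-- the substitution -/
theorem NM2_sub {f : ℝ → ℝ} (hf : Continuous f) (h0 : ∀ η, 0 ≤ f η) {t T w H a : ℝ} (hT : 0 < T) (ht : T / 2 ≤ t) (hw : 0 ≤ w) (hH : t * w ≤ H) :
    ∫ x in (a - w)..(a + w), f (t * (x - a)) ≤ 2 / T * ∫ η in (-H)..H, f η := by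
  have ht0 : 0 < t := by linarith
  have h1 : ∫ x in (a - w)..(a + w), f (t * (x - a)) = t⁻¹ * ∫ η in (-(t * w))..(t * w), f η := by
    have h2 : ∀ x : ℝ, t * (x - a) = t * x - t * a := fun x => by ring
    simp only [h2]
    rw [intervalIntegral.integral_comp_mul_sub f ht0.ne' (t * a), smul_eq_mul]
    have h3 : t * (a - w) - t * a = -(t * w) := by ring
    have h4 : t * (a + w) - t * a = t * w := by ring
    rw [h3, h4]
  have htw : 0 ≤ t * w := mul_nonneg ht0.le hw
  have h5 : ∫ η in (-(t * w))..(t * w), f η ≤ ∫ η in (-H)..H, f η :=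
    intervalIntegral.integral_mono_interval (by linarith) (by linarith) hH (Filter.Eventually.of_forall fun η => h0 η) (hf.intervalIntegrable _ _)
  have h6 : 0 ≤ ∫ η in (-(t * w))..(t * w), f η := intervalIntegral.integral_nonneg (by linarith) fun η _ => h0 η
  have h7 : t⁻¹ ≤ 2 / T := by
    rw [inv_le_comm₀ ht0 (by positivity), inv_div]
    exact ht
  rw [h1]
  exact mul_le_mul h7 h5 h6 (by positivity)

open Classical in
/-- the inequality for fixed `t` -/
theorem NM2_fix (J : Finset ℤ) (tj xj : ℤ → ℝ) (r ρ T H w A B : ℝ) (Ms : Finset ℤ) (F : ℤ → ℝ → ℝ → ℝ) (hr : 0 < r) (hT : 0 < T)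
    (hw : 0 < w) (hH : 3 * T * w ≤ H) (hA : 0 ≤ A) (hF : ∀ m, Continuous fun y : ℝ × ℝ => F m y.1 y.2) (hF0 : ∀ m t η, 0 ≤ F m t η)
    (hpt : ∀ t x : ℝ, B * (({j ∈ J | |x - xj j| ≤ r ∧ |t - tj j| ≤ ρ} : Finset ℤ).card : ℝ) ≤
      A * ∑ m ∈ Ms, if |x - m * w| ≤ w then F m t (t * (x - m * w)) else 0) (t : ℝ) (ht : T / 2 ≤ t) (ht3 : t ≤ 3 * T) :
    B * ((∑ j ∈ J, (Set.Icc (tj j - ρ) (tj j + ρ)).indicator (fun _ : ℝ => (1 : ℝ)) t) * (2 * r)) ≤
      A * (2 / T) * ∑ m ∈ Ms, ∫ η in (-H)..H, F m t η := by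
  have hFt : ∀ m, Continuous (F m t) := fun m => (hF m).comp (continuous_const.prodMk continuous_id)
  have hg : ∀ m : ℤ, Continuous fun x : ℝ => F m t (t * (x - m * w)) := fun m =>
    (hFt m).comp (continuous_const.mul (continuous_id.sub continuous_const))
  have hpt2 : ∀ x : ℝ, B * ∑ j ∈ J, (Set.Icc (tj j - ρ) (tj j + ρ)).indicator (fun _ : ℝ => (1 : ℝ)) t * (Set.Icc (xj j - r) (xj j + r)).indicator (fun _ : ℝ => (1 : ℝ)) x ≤
      A * ∑ m ∈ Ms, (Set.Icc ((m : ℝ) * w - w) (m * w + w)).indicator (fun x : ℝ => F m t (t * (x - m * w))) x := by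
    intro x
    have e1 : (({j ∈ J | |x - xj j| ≤ r ∧ |t - tj j| ≤ ρ} : Finset ℤ).card : ℝ) =
        ∑ j ∈ J, (Set.Icc (tj j - ρ) (tj j + ρ)).indicator (fun _ : ℝ => (1 : ℝ)) t * (Set.Icc (xj j - r) (xj j + r)).indicator (fun _ : ℝ => (1 : ℝ)) x := by
      rw [Finset.natCast_card_filter]
      refine Finset.sum_congr rfl fun j _ => ?_
      by_cases h1 : |x - xj j| ≤ r
      · by_cases h2 : |t - tj j| ≤ ρ
        · rw [if_pos ⟨h1, h2⟩, Set.indicator_of_mem ((NM2_mem _ _ _).1 h1), Set.indicator_of_mem ((NM2_mem _ _ _).1 h2), mul_one]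
        · rw [if_neg (fun h => h2 h.2), Set.indicator_of_notMem (fun h => h2 ((NM2_mem _ _ _).2 h)), zero_mul]
      · rw [if_neg (fun h => h1 h.1), Set.indicator_of_notMem (s := Set.Icc (xj j - r) (xj j + r)) (fun h => h1 ((NM2_mem _ _ _).2 h)), mul_zero]
    have e2 : (∑ m ∈ Ms, if |x - m * w| ≤ w then F m t (t * (x - m * w)) else 0) =
        ∑ m ∈ Ms, (Set.Icc ((m : ℝ) * w - w) (m * w + w)).indicator (fun x : ℝ => F m t (t * (x - m * w))) x := by
      refine Finset.sum_congr rfl fun m _ => ?_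
      by_cases h1 : |x - m * w| ≤ w
      · rw [if_pos h1, Set.indicator_of_mem ((NM2_mem _ _ _).1 h1)]
      · rw [if_neg h1, Set.indicator_of_notMem (fun h => h1 ((NM2_mem _ _ _).2 h))]
    have h1 := hpt t x
    rw [e1, e2] at h1
    exact h1
  have i1 : ∀ j ∈ J, Integrable fun x : ℝ => (Set.Icc (tj j - ρ) (tj j + ρ)).indicator (fun _ : ℝ => (1 : ℝ)) t * (Set.Icc (xj j - r) (xj j + r)).indicator (fun _ : ℝ => (1 : ℝ)) x :=
    fun j _ => (NM2_ind (xj j) r hr.le).1.const_mul _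
  have i2 : ∀ m ∈ Ms, Integrable fun x : ℝ => (Set.Icc ((m : ℝ) * w - w) (m * w + w)).indicator (fun x : ℝ => F m t (t * (x - m * w))) x :=
    fun m _ => (NM2_cont (hg m) (by linarith)).1
  have h1 := integral_mono ((integrable_finsetSum _ i1).const_mul B) ((integrable_finsetSum _ i2).const_mul A) hpt2
  rw [integral_const_mul, integral_const_mul, integral_finsetSum _ i1, integral_finsetSum _ i2] at h1
  have e3 : (∑ j ∈ J, ∫ x : ℝ, (Set.Icc (tj j - ρ) (tj j + ρ)).indicator (fun _ : ℝ => (1 : ℝ)) t * (Set.Icc (xj j - r) (xj j + r)).indicator (fun _ : ℝ => (1 : ℝ)) x) =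
      (∑ j ∈ J, (Set.Icc (tj j - ρ) (tj j + ρ)).indicator (fun _ : ℝ => (1 : ℝ)) t) * (2 * r) := by
    rw [Finset.sum_mul]
    refine Finset.sum_congr rfl fun j _ => ?_
    rw [integral_const_mul, (NM2_ind (xj j) r hr.le).2]
  rw [e3] at h1
  refine h1.trans ?_
  rw [mul_assoc, Finset.mul_sum Ms _ (2 / T)]
  refine mul_le_mul_of_nonneg_left (Finset.sum_le_sum fun m _ => ?_) hA
  rw [(NM2_cont (hg m) (by linarith)).2]
  refine NM2_sub (hFt m) (hF0 m t) hT ht hw.le ?_
  exact (mul_le_mul_of_nonneg_right ht3 hw.le).trans hH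

theorem NM2_proof : NM2_stmt := by
  classical
  intro J tj xj r ρ T H w A B Ms F hr hρ hT hw hH hA hB hF hF0 hJ hpt
  have hH0 : 0 < H := lt_of_lt_of_le (by positivity) hH
  have hGc : ∀ m, Continuous fun t : ℝ => ∫ η in (-H)..H, F m t η := fun m =>
    intervalIntegral.continuous_parametric_intervalIntegral_of_continuous' (f := F m) (hF m) (-H) H
  have hG0 : ∀ m t, 0 ≤ ∫ η in (-H)..H, F m t η := fun m t =>
    intervalIntegral.integral_nonneg (by linarith) fun η _ => hF0 m t η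
  have hGs : Continuous fun t : ℝ => A * (2 / T) * ∑ m ∈ Ms, ∫ η in (-H)..H, F m t η :=
    continuous_const.mul (continuous_finsetSum _ fun m _ => hGc m)
  have hT3 : -(3 * T) ≤ 3 * T := by linarith
  -- the inequality for all `t`
  have hall : ∀ t : ℝ, B * ((∑ j ∈ J, (Set.Icc (tj j - ρ) (tj j + ρ)).indicator (fun _ : ℝ => (1 : ℝ)) t) * (2 * r)) ≤
      (Set.Icc (-(3 * T)) (3 * T)).indicator (fun t : ℝ => A * (2 / T) * ∑ m ∈ Ms, ∫ η in (-H)..H, F m t η) t := by
    intro t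
    by_cases ht : T / 2 ≤ t ∧ t ≤ 3 * T
    · rw [Set.indicator_of_mem (s := Set.Icc (-(3 * T)) (3 * T)) ⟨by linarith [ht.1], ht.2⟩]
      exact NM2_fix J tj xj r ρ T H w A B Ms F hr hT hw hH hA hF hF0 hpt t ht.1 ht.2
    · have h1 : ∑ j ∈ J, (Set.Icc (tj j - ρ) (tj j + ρ)).indicator (fun _ : ℝ => (1 : ℝ)) t = 0 := by
        refine Finset.sum_eq_zero fun j hj => ?_
        refine Set.indicator_of_notMem (fun h => ht ?_) _
        exact ⟨(hJ j hj).1.trans h.1, h.2.trans (hJ j hj).2⟩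
      rw [h1, zero_mul, mul_zero]
      refine Set.indicator_nonneg (fun s _ => ?_) t
      exact mul_nonneg (mul_nonneg hA (by positivity)) (Finset.sum_nonneg fun m _ => hG0 m s)
  have i1 : ∀ j ∈ J, Integrable fun t : ℝ => (Set.Icc (tj j - ρ) (tj j + ρ)).indicator (fun _ : ℝ => (1 : ℝ)) t :=
    fun j _ => (NM2_ind (tj j) ρ hρ.le).1
  have h1 := integral_mono (((integrable_finsetSum _ i1).mul_const (2 * r)).const_mul B) (NM2_cont hGs hT3).1 hall
  rw [integral_const_mul, integral_mul_const, integral_finsetSum _ i1, (NM2_cont hGs hT3).2, intervalIntegral.integral_const_mul,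
    intervalIntegral.integral_finsetSum (fun m _ => (hGc m).intervalIntegrable _ _)] at h1
  have e1 : (∑ j ∈ J, ∫ t : ℝ, (Set.Icc (tj j - ρ) (tj j + ρ)).indicator (fun _ : ℝ => (1 : ℝ)) t) = J.card * (2 * ρ) := by
    rw [Finset.sum_congr rfl fun j _ => (NM2_ind (tj j) ρ hρ.le).2, Finset.sum_const, nsmul_eq_mul]
  rw [e1] at h1
  have e2 : B * ((J.card : ℝ) * (2 * r) * (2 * ρ)) = B * (J.card * (2 * ρ) * (2 * r)) := by ring
  rw [e2]
  exact h1

end Pool.Agent.T1
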